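import Pool.Agent.Helper317.SOA

/-!
# The principles `IRT_XYZ` in second-order arithmetic

`X` is `U` (undirected) or `D` (directed), `Y` is `V` (vertex-disjoint) or `E` (edge-disjoint), `Z`
is `S` (rays) or `D` (double rays).  The flags `dir`, `edge`, `dbl` are `true` for `X = D`, `Y = E`,
`Z = D`.  The principles are given twice: as properties of two-sorted structures, and as formulas of
second-order arithmetic (`irt`); `sat_irt` says that both agree in every structure.
-/

set_option autoImplicit false

namespace Pool.Agent.Q257.IR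

open Pool.Agent.Helper317.SOA

/-! ### The principles as properties of structures -/

/-- `Vt` and `E` are the vertex set and the edge set of a graph (`dir = false`) or digraph
(`dir = true`): an edge from `u` to `v` is the code of `(u, v)`, there are no loops, and in a
graph the edges are symmetric. -/
def IsGraph (M : Model) (dir : Bool) (Vt E : Set M.Num) : Prop :=
  (∀ u v, M.pair u v ∈ E → (u ∈ Vt ∧ v ∈ Vt) ∧ u ≠ v) ∧
    (dir = false → ∀ u v, M.pair u v ∈ E → M.pair v u ∈ E)

/-- A set `R` codes a sequence of rays or double rays.  The vertices of a double ray are indexed by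
the integers, an integer is a difference `p - q` of two numbers of the structure.  `At M R i p q v`
says that `v` is the vertex with index `p - q` of the `i`-th member of the sequence. -/
def At (M : Model) (R : Set M.Num) (i p q v : M.Num) : Prop :=
  M.pair (M.pair i (M.pair p q)) v ∈ R

/-- The numbers `q` for which `p - q` is used as an index: all for double rays, and only `q = 0` for
(one-way infinite) rays. -/
def Idx (M : Model) (dbl : Bool) (q : M.Num) : Prop := dbl = false → q = M.zero

/-- The `i`-th member of the sequence `R` is a ray (`dbl = false`) or a double ray (`dbl = true`):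
every index `p - q` has a vertex, equal indices have equal vertices, different indices have
different vertices, and there is an edge from the vertex `p - q` to the vertex `(p + 1) - q`. -/
def IsRay (M : Model) (dbl : Bool) (E R : Set M.Num) (i : M.Num) : Prop :=
  (∀ p q, Idx M dbl q → ∃ u, At M R i p q u) ∧
    (∀ p q p' q' u v, Idx M dbl q ∧ Idx M dbl q' → At M R i p q u ∧ At M R i p' q' v →
      (u = v ↔ M.add p q' = M.add p' q)) ∧
    ∀ p q u v, Idx M dbl q → At M R i p q u ∧ At M R i (M.add p M.one) q v → M.pair u v ∈ E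

/-- The `i`-th and the `j`-th member of the sequence `R` are disjoint: they have no vertex in
common (`edge = false`) or no edge in common (`edge = true`); in a graph the two directions of an
edge are the same edge. -/
def Disj (M : Model) (dir edge dbl : Bool) (R : Set M.Num) (i j : M.Num) : Prop :=
  (edge = false → ∀ p q p' q' u, Idx M dbl q ∧ Idx M dbl q' →
      At M R i p q u → ¬ At M R j p' q' u) ∧
    (edge = true → ∀ p q p' q' u v, Idx M dbl q ∧ Idx M dbl q' →
      At M R i p q u ∧ At M R i (M.add p M.one) q v →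
        ¬ (At M R j p' q' u ∧ At M R j (M.add p' M.one) q' v) ∧
        (dir = false → ¬ (At M R j p' q' v ∧ At M R j (M.add p' M.one) q' u)))

/-- **The principle `IRT_XYZ`** in the structure `M`: for every graph or digraph, if for every `n`
there is a sequence of `n` pairwise disjoint rays or double rays, then there is an infinite
sequence of pairwise disjoint rays or double rays. -/
def IRT (M : Model) (dir edge dbl : Bool) : Prop :=
  ∀ Vt ∈ M.sets, ∀ E ∈ M.sets, IsGraph M dir Vt E →
    (∀ n, ∃ R ∈ M.sets, (∀ i, M.lt i n → IsRay M dbl E R i) ∧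
      ∀ i j, (M.lt i n ∧ M.lt j n) ∧ i ≠ j → Disj M dir edge dbl R i j) →
    ∃ R ∈ M.sets, (∀ i, IsRay M dbl E R i) ∧ ∀ i j, i ≠ j → Disj M dir edge dbl R i j

/-! ### The principles as formulas -/

/-- Existential set quantifier. -/
def exS (i : ℕ) (φ : Fm) : Fm := .neg (.allS i (.neg φ))

/-- Equivalence. -/
def iffF (φ ψ : Fm) : Fm := .and (.imp φ ψ) (.imp ψ φ)

/-- A condition that is imposed only if `b = true`. -/
def cond (b : Bool) (φ : Fm) : Fm := if b then φ else .eq .zero .zero

/-- The code of a pair. -/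
def pr (s t : Tm) : Tm := .add (.mul (.add s t) (.add s t)) s

/-- `p + 1` -/
def sc (t : Tm) : Tm := .add t .one

/-- The set variable `0` is the vertex set, `1` is the edge set, `2` is the sequence of rays. -/
def graphF (dir : Bool) : Fm :=
  .and
    (.all 6 (.all 7 (.imp (.mem (pr (.var 6) (.var 7)) 1)
      (.and (.and (.mem (.var 6) 0) (.mem (.var 7) 0)) (.neg (.eq (.var 6) (.var 7)))))))
    (cond (!dir) (.all 6 (.all 7 (.imp (.mem (pr (.var 6) (.var 7)) 1)
      (.mem (pr (.var 7) (.var 6)) 1)))))

/-- see `At` -/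
def atF (i : ℕ) (p q : Tm) (v : ℕ) : Fm := .mem (pr (pr (.var i) (pr p q)) (.var v)) 2

/-- see `Idx` -/
def idxF (dbl : Bool) (q : ℕ) : Fm := cond (!dbl) (.eq (.var q) .zero)

/-- see `IsRay`; the number variables `2, 3, 4, 5` are `p, q, p', q'`, and `6, 7` are `u, v` -/
def rayF (dbl : Bool) (i : ℕ) : Fm :=
  .and (.all 2 (.all 3 (.imp (idxF dbl 3) (.ex 6 (atF i (.var 2) (.var 3) 6)))))
    (.and
      (.all 2 (.all 3 (.all 4 (.all 5 (.all 6 (.all 7 (.imp (.and (idxF dbl 3) (idxF dbl 5))
        (.imp (.and (atF i (.var 2) (.var 3) 6) (atF i (.var 4) (.var 5) 7))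
          (iffF (.eq (.var 6) (.var 7))
            (.eq (.add (.var 2) (.var 5)) (.add (.var 4) (.var 3)))))))))))) 
      (.all 2 (.all 3 (.all 6 (.all 7 (.imp (idxF dbl 3)
        (.imp (.and (atF i (.var 2) (.var 3) 6) (atF i (sc (.var 2)) (.var 3) 7))
          (.mem (pr (.var 6) (.var 7)) 1))))))))

/-- see `Disj`; the number variables `0, 1` are `i, j` -/
def disjF (dir edge dbl : Bool) : Fm :=
  .and
    (cond (!edge) (.all 2 (.all 3 (.all 4 (.all 5 (.all 6
      (.imp (.and (idxF dbl 3) (idxF dbl 5)) (.imp (atF 0 (.var 2) (.var 3) 6)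
        (.neg (atF 1 (.var 4) (.var 5) 6))))))))))
    (cond edge (.all 2 (.all 3 (.all 4 (.all 5 (.all 6 (.all 7
      (.imp (.and (idxF dbl 3) (idxF dbl 5))
        (.imp (.and (atF 0 (.var 2) (.var 3) 6) (atF 0 (sc (.var 2)) (.var 3) 7))
          (.and (.neg (.and (atF 1 (.var 4) (.var 5) 6) (atF 1 (sc (.var 4)) (.var 5) 7)))
            (cond (!dir)
              (.neg (.and (atF 1 (.var 4) (.var 5) 7) (atF 1 (sc (.var 4)) (.var 5) 6))))))))))))))

/-- **The sentence `IRT_XYZ`** of second-order arithmetic. -/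
def irt (dir edge dbl : Bool) : Fm :=
  .allS 0 (.allS 1 (.imp (graphF dir) (.imp
    (.all 8 (exS 2 (.and (.all 0 (.imp (.lt (.var 0) (.var 8)) (rayF dbl 0)))
      (.all 0 (.all 1 (.imp (.and (.and (.lt (.var 0) (.var 8)) (.lt (.var 1) (.var 8)))
        (.neg (.eq (.var 0) (.var 1)))) (disjF dir edge dbl)))))))
    (exS 2 (.and (.all 0 (rayF dbl 0))
      (.all 0 (.all 1 (.imp (.neg (.eq (.var 0) (.var 1))) (disjF dir edge dbl)))))))))

section sat

variable (M : Model) (v : ℕ → M.Num) (V : ℕ → Set M.Num)

@[simp] theorem sat_imp (φ ψ : Fm) : Sat M v V (.imp φ ψ) ↔ (Sat M v V φ → Sat M v V ψ) := by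
  simp only [Fm.imp, Sat, not_and, not_not]

@[simp] theorem sat_ex (i : ℕ) (φ : Fm) :
    Sat M v V (.ex i φ) ↔ ∃ a, Sat M (Function.update v i a) V φ := by
  simp only [Fm.ex, Sat, not_forall, not_not]

@[simp] theorem sat_exS (i : ℕ) (φ : Fm) :
    Sat M v V (exS i φ) ↔ ∃ A ∈ M.sets, Sat M v (Function.update V i A) φ := by
  simp only [exS, Sat, not_forall, not_not, exists_prop]

@[simp] theorem sat_iff (φ ψ : Fm) :
    Sat M v V (iffF φ ψ) ↔ (Sat M v V φ ↔ Sat M v V ψ) := by
  simp only [iffF, Sat, sat_imp, iff_def]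

@[simp] theorem sat_cond (b : Bool) (φ : Fm) :
    Sat M v V (cond b φ) ↔ (b = true → Sat M v V φ) := by
  cases b <;> simp [cond, Sat]

@[simp] theorem sat_idxF (dbl : Bool) (q : ℕ) :
    Sat M v V (idxF dbl q) ↔ Idx M dbl (v q) := by
  cases dbl <;> simp [idxF, Idx, Sat, Tm.val]

@[simp] theorem sat_atF (i : ℕ) (p q : Tm) (u : ℕ) :
    Sat M v V (atF i p q u) ↔ At M (V 2) (v i) (p.val M v) (q.val M v) (v u) := Iff.rfl

theorem sat_graph (dir : Bool) : Sat M v V (graphF dir) ↔ IsGraph M dir (V 0) (V 1) := by
  cases dir <;> simp [graphF, IsGraph, Sat, pr, Tm.val, Model.pair]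

theorem sat_ray (dbl : Bool) : Sat M v V (rayF dbl 0) ↔ IsRay M dbl (V 1) (V 2) (v 0) := by
  simp [rayF, IsRay, Sat, pr, sc, Tm.val, Model.pair]

theorem sat_disj (dir edge dbl : Bool) :
    Sat M v V (disjF dir edge dbl) ↔ Disj M dir edge dbl (V 2) (v 0) (v 1) := by
  simp [disjF, Disj, Sat, sc, Tm.val]

/-- The sentence `irt` expresses the principle `IRT`. -/
theorem sat_irt (dir edge dbl : Bool) :
    Sat M v V (irt dir edge dbl) ↔ IRT M dir edge dbl := by
  simp [irt, IRT, Sat, sat_graph, sat_ray, sat_disj, Tm.val]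

end sat

end Pool.Agent.Q257.IR
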