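import Mathlib

/-!
# Halin's theorem on infinitely many disjoint rays

One proof for graphs and digraphs, for vertex-disjoint and for edge-disjoint rays: the items of a
ray `f` are the values `it (f k) (f (k+1))`, where `it u v` is `u`, `(u, v)` or `s(u, v)`.
The proof is a stable matching (Gale-Shapley) argument.
-/

set_option autoImplicit false

namespace Pool.Agent.Q257.IR

variable {V I : Type*}

/-- A ray: a one-way infinite path. -/
def Ray (adj : V → V → Prop) (f : ℕ → V) : Prop :=
  Function.Injective f ∧ ∀ k, adj (f k) (f (k + 1))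

/-- The `k`-th item of a ray. -/
def item (it : V → V → I) (f : ℕ → V) (k : ℕ) : I := it (f k) (f (k + 1))

/-- Two rays have no common item. -/
def DisjR (it : V → V → I) (f g : ℕ → V) : Prop := ∀ k l, item it f k ≠ item it g l

/-! ### Loop erasure -/

section erase

variable (W : ℕ → V) (hW : ∀ v, ∃ N, ∀ m, N ≤ m → W m ≠ v)

include hW in
theorem exists_last (n : ℕ) : ∃ m, n ≤ m ∧ W m = W n ∧ ∀ m', m < m' → W m' ≠ W n := by
  classical
  obtain ⟨N, hN⟩ := hW (W n)
  have hlt : ∀ m, W m = W n → m < N := fun m h => by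
    by_contra hc
    exact hN m (not_lt.1 hc) h
  let P : ℕ → Prop := fun m => W m = W n
  have hP : P n := rfl
  refine ⟨Nat.findGreatest P N, Nat.le_findGreatest (hlt n rfl).le hP,
    Nat.findGreatest_spec (P := P) (hlt n rfl).le hP, fun m' hm' h => ?_⟩
  exact absurd (Nat.le_findGreatest (P := P) (hlt m' h).le h) (not_le.2 hm')

/-- the last visit to the vertex of time `n` -/
noncomputable def last (n : ℕ) : ℕ := (exists_last W hW n).choose

theorem last_spec (n : ℕ) : n ≤ last W hW n ∧ W (last W hW n) = W n ∧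
    ∀ m', last W hW n < m' → W m' ≠ W n := (exists_last W hW n).choose_spec

/-- the times of the loop erasure -/
noncomputable def tm : ℕ → ℕ
  | 0 => last W hW 0
  | k + 1 => last W hW (tm k + 1)

theorem tm_lt (k : ℕ) : tm W hW k < tm W hW (k + 1) :=
  lt_of_lt_of_le (Nat.lt_succ_self _) (last_spec W hW _).1

theorem tm_last (k m' : ℕ) (h : tm W hW k < m') : W m' ≠ W (tm W hW k) := by
  cases k with
  | zero =>
    have := last_spec W hW 0
    rw [tm, this.2.1]
    exact this.2.2 m' h
  | succ k =>
    have := last_spec W hW (tm W hW k + 1)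
    rw [tm, this.2.1]
    exact this.2.2 m' h

include hW in
/-- **Loop erasure.** -/
theorem erase : ∃ f : ℕ → V, Function.Injective f ∧ f 0 = W 0 ∧
    ∀ k, ∃ m, f k = W m ∧ f (k + 1) = W (m + 1) := by
  refine ⟨fun k => W (tm W hW k), ?_, (last_spec W hW 0).2.1, fun k => ⟨tm W hW k, rfl, ?_⟩⟩
  · have hmono : StrictMono (tm W hW) := strictMono_nat_of_lt_succ (tm_lt W hW)
    intro k l h
    by_contra hne
    rcases lt_or_gt_of_ne hne with hlt | hlt
    · exact tm_last W hW k _ (hmono hlt) h.symm
    · exact tm_last W hW l _ (hmono hlt) h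
  · exact (last_spec W hW (tm W hW k + 1)).2.1

end erase

/-! ### The stable matching -/

section match_

variable (it : V → V → I) {n : ℕ} (P : Fin n → ℕ → V) (R : Fin (n + 1) → ℕ → V)

/-- The item `(i, k)` is rejected, if the path `P i'` has been followed up to `a i'`. -/
def Rej (a : Fin n → ℕ) (i : Fin n) (k : ℕ) : Prop :=
  ∀ j l, item it (P i) k = item it (R j) l →
    ∃ i' k' l', k' ≤ a i' ∧ l < l' ∧ item it (P i') k' = item it (R j) l'

open Classical in
/-- one round: every rejected proposer advances -/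
noncomputable def nxt (a : Fin n → ℕ) : Fin n → ℕ :=
  fun i => if Rej it P R a i (a i) then a i + 1 else a i

/-- the state at time `t` -/
noncomputable def st : ℕ → Fin n → ℕ
  | 0 => fun _ => 0
  | t + 1 => nxt it P R (st t)

variable {it P R}

theorem Rej.mono {a b : Fin n → ℕ} (hab : ∀ i, a i ≤ b i) {i : Fin n} {k : ℕ}
    (h : Rej it P R a i k) : Rej it P R b i k := by
  intro j l hjl
  obtain ⟨i', k', l', h1, h2, h3⟩ := h j l hjl
  exact ⟨i', k', l', h1.trans (hab i'), h2, h3⟩

theorem st_le_succ (t : ℕ) (i : Fin n) : st it P R t i ≤ st it P R (t + 1) i := by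
  show _ ≤ nxt it P R (st it P R t) i
  unfold nxt
  split_ifs <;> omega

theorem st_mono {s t : ℕ} (h : s ≤ t) (i : Fin n) : st it P R s i ≤ st it P R t i := by
  induction t, h using Nat.le_induction with
  | base => exact le_rfl
  | succ t _ ih => exact ih.trans (st_le_succ t i)

/-- all passed items are rejected -/
theorem st_rej (t : ℕ) (i : Fin n) (k : ℕ) (hk : k < st it P R t i) :
    Rej it P R (st it P R t) i k := by
  induction t with
  | zero => exact absurd hk (Nat.not_lt_zero _)
  | succ t ih =>
    refine Rej.mono (st_le_succ t) ?_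
    by_cases h : k < st it P R t i
    · exact ih h
    · have h1 : st it P R (t + 1) i = nxt it P R (st it P R t) i := rfl
      rw [h1] at hk
      unfold nxt at hk
      split_ifs at hk with h2
      · have : k = st it P R t i := by omega
        rwa [this]
      · exact absurd hk h

/-- the ray `j` has been proposed to by time `t` -/
def Touched (it : V → V → I) (P : Fin n → ℕ → V) (R : Fin (n + 1) → ℕ → V) (t : ℕ)
    (j : Fin (n + 1)) : Prop :=
  ∃ i k l, k ≤ st it P R t i ∧ item it (P i) k = item it (R j) l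

variable (hit : ∀ u v u' v', it u v = it u' v' → u = u' ∨ u = v')

include hit in
theorem exists_holder {t : ℕ} {j : Fin (n + 1)} (hR : Function.Injective (R j))
    (h : Touched it P R t j) :
    ∃ i l, item it (P i) (st it P R t i) = item it (R j) l := by
  classical
  let T : Set ℕ := {l | ∃ i k, k ≤ st it P R t i ∧ item it (P i) k = item it (R j) l}
  have hfin : T.Finite := by
    have : T ⊆ ⋃ i : Fin n, ⋃ k ∈ Set.Iic (st it P R t i),
        ({l | R j l = P i k} ∪ {l | R j (l + 1) = P i k}) := by
      rintro l ⟨i, k, hk, hl⟩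
      simp only [Set.mem_iUnion]
      refine ⟨i, k, hk, ?_⟩
      rcases hit _ _ _ _ hl with h1 | h1
      · exact Or.inl h1.symm
      · exact Or.inr h1.symm
    refine Set.Finite.subset (Set.finite_iUnion fun i => (Set.finite_Iic _).biUnion fun k _ => ?_)
      this
    refine Set.Finite.union (Set.Subsingleton.finite ?_) (Set.Subsingleton.finite ?_)
    · intro a ha b hb
      exact hR ((show R j a = P i k from ha).trans (show R j b = P i k from hb).symm)
    · intro a ha b hb
      have := hR ((show R j (a + 1) = P i k from ha).trans (show R j (b + 1) = P i k from hb).symm)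
      omega
  have hne : T.Nonempty := by
    obtain ⟨i, k, l, h1, h2⟩ := h
    exact ⟨l, i, k, h1, h2⟩
  obtain ⟨l, ⟨i, k, hk, hkl⟩, hmax⟩ : ∃ l ∈ T, ∀ l' ∈ T, l' ≤ l :=
    ⟨sSup T, Nat.sSup_mem hne hfin.bddAbove, fun l' hl' => le_csSup hfin.bddAbove hl'⟩
  refine ⟨i, l, ?_⟩
  rcases hk.lt_or_eq with hlt | heq
  · obtain ⟨i', k', l', h1, h2, h3⟩ := st_rej t i k hlt j l hkl
    have := hmax l' ⟨i', k', h1, h3⟩
    omega
  · rw [← heq]; exact hkl

include hit in
theorem exists_untouched (hR : ∀ j, Function.Injective (R j))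
    (hd : ∀ j j', j ≠ j' → DisjR it (R j) (R j')) : ∃ j, ∀ t, ¬ Touched it P R t j := by
  classical
  by_contra hc
  push Not at hc
  choose τ hτ using hc
  let t := Finset.univ.sup τ
  have h1 : ∀ j, Touched it P R t j := fun j => by
    obtain ⟨i, k, l, h1, h2⟩ := hτ j
    exact ⟨i, k, l, h1.trans (st_mono (Finset.le_sup (Finset.mem_univ j)) i), h2⟩
  choose h l hl using fun j => exists_holder hit (hR j) (h1 j)
  obtain ⟨j, j', hne, hjj⟩ := Fintype.exists_ne_map_eq_of_card_lt h (by simp)
  refine hd j j' hne (l j) (l j') ?_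
  rw [← hl j, ← hl j', hjj]

include hit in
/-- **The linking lemma.**  Given `n` disjoint rays `P i` and `n + 1` disjoint rays `R j`, there
are `n` disjoint rays `Q i` and a ray `R j₀` disjoint from all of them, such that `Q i` begins in
the first vertex of `P i`, uses only vertices of `P i` and of the rays `R j`, and only items of
`P i` and of the rays `R j`. -/
theorem link {adj : V → V → Prop} (hP : ∀ i, Ray adj (P i)) (hR : ∀ j, Ray adj (R j))
    (hPd : ∀ i i', i ≠ i' → DisjR it (P i) (P i'))
    (hRd : ∀ j j', j ≠ j' → DisjR it (R j) (R j')) :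
    ∃ (Q : Fin n → ℕ → V) (j₀ : Fin (n + 1)), (∀ i, Ray adj (Q i)) ∧
      (∀ i, Q i 0 = P i 0) ∧ (∀ i i', i ≠ i' → DisjR it (Q i) (Q i')) ∧
      (∀ i, DisjR it (Q i) (R j₀)) ∧
      (∀ i k, (∃ m, Q i k = P i m) ∨ ∃ j m, Q i k = R j m) ∧
      ∀ i k, (∃ m, item it (Q i) k = item it (P i) m) ∨
        ∃ j m, item it (Q i) k = item it (R j) m := by
  classical
  obtain ⟨j₀, hj₀⟩ := exists_untouched (P := P) hit (fun j => (hR j).1) hRd
  -- for every proposer: the used items of `P i`, and the used tail of a ray `R j`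
  have key : ∀ i, ∃ (Q : ℕ → V), Ray adj Q ∧ Q 0 = P i 0 ∧
      (∀ k, (∃ m, Q k = P i m) ∨ ∃ j m, Q k = R j m) ∧
      ∃ o : Option (Fin (n + 1) × ℕ),
        (∀ j l, o = some (j, l) → (∃ x t, x ≤ st it P R t i ∧
            item it (P i) x = item it (R j) l) ∧
          ∀ t i' k' l', k' ≤ st it P R t i' → l < l' →
            item it (P i') k' ≠ item it (R j) l') ∧
        ∀ k, (∃ m t, m ≤ st it P R t i ∧ item it Q k = item it (P i) m) ∨
          ∃ j l m, o = some (j, l) ∧ l ≤ m ∧ item it Q k = item it (R j) m := by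
    intro i
    by_cases hs : ∃ t, ¬ Rej it P R (st it P R t) i (st it P R t i) ∧
        ∀ t', t ≤ t' → st it P R t' i = st it P R t i
    · -- `i` is matched
      obtain ⟨t, -, ht⟩ := hs
      set x := st it P R t i with hx
      have hnr : ∀ t', ¬ Rej it P R (st it P R t') i x := by
        intro t' hrej
        have h1 : Rej it P R (st it P R (max t t')) i x :=
          hrej.mono fun i' => st_mono (le_max_right _ _) i'
        have h2 : st it P R (max t t') i = x := ht _ (le_max_left _ _)
        have h3 : st it P R (max t t' + 1) i = x := ht _ ((le_max_left _ _).trans (Nat.le_succ _))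
        have h4 : st it P R (max t t' + 1) i = nxt it P R (st it P R (max t t')) i := rfl
        rw [h3] at h4
        unfold nxt at h4
        rw [h2, if_pos h1] at h4
        omega
      -- a pair `(j, l)` that works for all times
      have hex : ∃ j l, item it (P i) x = item it (R j) l ∧
          ∀ t' i' k' l', k' ≤ st it P R t' i' → l < l' →
            item it (P i') k' ≠ item it (R j) l' := by
        by_contra hc
        push Not at hc
        -- the finitely many `(j, l)` with the same item
        have hfin : {q : Fin (n + 1) × ℕ | item it (P i) x = item it (R q.1) q.2}.Finite := by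
          have hsub : {q : Fin (n + 1) × ℕ | item it (P i) x = item it (R q.1) q.2} ⊆
              ⋃ j : Fin (n + 1), (fun l => (j, l)) ''
                ({l | R j l = P i x} ∪ {l | R j (l + 1) = P i x}) := by
            rintro ⟨j, l⟩ hl
            simp only [Set.mem_iUnion]
            refine ⟨j, l, ?_, rfl⟩
            rcases hit _ _ _ _ hl with h1 | h1
            · exact Or.inl h1.symm
            · exact Or.inr h1.symm
          refine Set.Finite.subset (Set.finite_iUnion fun j => Set.Finite.image _ ?_) hsub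
          refine Set.Finite.union (Set.Subsingleton.finite ?_) (Set.Subsingleton.finite ?_)
          · intro a ha b hb
            exact (hR j).1 ((show R j a = P i x from ha).trans (show R j b = P i x from hb).symm)
          · intro a ha b hb
            have := (hR j).1 ((show R j (a + 1) = P i x from ha).trans
              (show R j (b + 1) = P i x from hb).symm)
            omega
        have hc' : ∀ q : Fin (n + 1) × ℕ, ∃ t', item it (P i) x = item it (R q.1) q.2 →
            ∃ i' k' l', k' ≤ st it P R t' i' ∧ q.2 < l' ∧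
              item it (P i') k' = item it (R q.1) l' := by
          intro q
          by_cases hq : item it (P i) x = item it (R q.1) q.2
          · obtain ⟨t', i', k', l', h1, h2, h3⟩ := hc q.1 q.2 hq
            exact ⟨t', fun _ => ⟨i', k', l', h1, h2, h3⟩⟩
          · exact ⟨0, fun h => absurd h hq⟩
        choose τ hτ using hc'
        refine hnr (hfin.toFinset.sup τ) fun j l hl => ?_
        obtain ⟨i', k', l', h1, h2, h3⟩ := hτ (j, l) hl
        refine ⟨i', k', l', h1.trans (st_mono (Finset.le_sup (f := τ) ?_) i'), h2, h3⟩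
        simpa using hl
      obtain ⟨j, l, hjl, hmax⟩ := hex
      -- the walk
      obtain ⟨l', hl', hll'⟩ : ∃ l', l ≤ l' ∧ P i x = R j l' := by
        rcases hit _ _ _ _ hjl with h | h
        · exact ⟨l, le_rfl, h⟩
        · exact ⟨l + 1, Nat.le_succ _, h⟩
      let W : ℕ → V := fun m => if m ≤ x then P i m else R j (l' + (m - x))
      have hW1 : ∀ m, m ≤ x → W m = P i m := fun m hm => if_pos hm
      have hW2 : ∀ m, x ≤ m → W m = R j (l' + (m - x)) := by
        intro m hm
        rcases hm.lt_or_eq with h | h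
        · exact if_neg (not_le.2 h)
        · rw [← h, hW1 x le_rfl, hll', Nat.sub_self, Nat.add_zero]
      have hWinf : ∀ v, ∃ N, ∀ m, N ≤ m → W m ≠ v := by
        intro v
        by_cases hv : ∃ k, R j k = v
        · obtain ⟨k, rfl⟩ := hv
          refine ⟨x + k + 1, fun m hm h => ?_⟩
          rw [hW2 m (by omega)] at h
          have := (hR j).1 h
          omega
        · refine ⟨x, fun m hm h => hv ⟨_, (hW2 m hm).symm.trans h⟩⟩
      obtain ⟨Q, hQinj, hQ0, hQ⟩ := erase W hWinf
      have hWit : ∀ m, (m < x ∧ item it W m = item it (P i) m ∧ adj (W m) (W (m + 1))) ∨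
          (∃ m', l ≤ m' ∧ item it W m = item it (R j) m' ∧ adj (W m) (W (m + 1))) := by
        intro m
        by_cases hm : m < x
        · left
          refine ⟨hm, ?_, ?_⟩
          · unfold item
            rw [hW1 m hm.le, hW1 (m + 1) hm]
          · rw [hW1 m hm.le, hW1 (m + 1) hm]
            exact (hP i).2 m
        · right
          have h1 : x ≤ m := not_lt.1 hm
          refine ⟨l' + (m - x), by omega, ?_, ?_⟩
          · unfold item
            rw [hW2 m h1, hW2 (m + 1) (by omega), show l' + (m + 1 - x) = l' + (m - x) + 1 by omega]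
          · rw [hW2 m h1, hW2 (m + 1) (by omega), show l' + (m + 1 - x) = l' + (m - x) + 1 by omega]
            exact (hR j).2 _
      refine ⟨Q, ⟨hQinj, fun k => ?_⟩, ?_, fun k => ?_, some (j, l), ?_, fun k => ?_⟩
      · obtain ⟨m, h1, h2⟩ := hQ k
        rw [h1, h2]
        rcases hWit m with h | ⟨_, h⟩
        · exact h.2.2
        · exact h.2.2
      · rw [hQ0, hW1 0 (Nat.zero_le _)]
      · obtain ⟨m, h1, -⟩ := hQ k
        rw [h1]
        by_cases hm : m ≤ x
        · exact Or.inl ⟨m, hW1 m hm⟩
        · exact Or.inr ⟨j, _, hW2 m (by omega)⟩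
      · rintro j' l'' h
        rw [Option.some.injEq, Prod.mk.injEq] at h
        obtain ⟨rfl, rfl⟩ := h
        exact ⟨⟨x, t, hx.le, hjl⟩, hmax⟩
      · obtain ⟨m, h1, h2⟩ := hQ k
        have h3 : item it Q k = item it W m := by
          unfold item
          rw [h1, h2]
        rw [h3]
        rcases hWit m with h | ⟨m', h, h', -⟩
        · exact Or.inl ⟨m, t, by omega, h.2.1⟩
        · exact Or.inr ⟨j, l, m', rfl, h, h'⟩
    · -- `i` is rejected forever
      have hunb : ∀ k, ∃ t, k ≤ st it P R t i := by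
        intro k
        induction k with
        | zero => exact ⟨0, Nat.zero_le _⟩
        | succ k ih =>
          obtain ⟨t, ht⟩ := ih
          by_contra hc
          push Not at hc
          have hconst : ∀ t', t ≤ t' → st it P R t' i = k := fun t' htt' => by
            have h1 := hc t'
            have h2 := ht.trans (st_mono (it := it) (P := P) (R := R) htt' i)
            omega
          apply hs
          refine ⟨t, fun hrej => ?_, fun t' htt' => by rw [hconst t' htt', hconst t le_rfl]⟩
          have h3 : st it P R (t + 1) i = nxt it P R (st it P R t) i := rfl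
          unfold nxt at h3
          rw [if_pos hrej, hconst t le_rfl, hconst (t + 1) (Nat.le_succ _)] at h3
          omega
      refine ⟨P i, hP i, rfl, fun k => Or.inl ⟨k, rfl⟩, none, fun j l h => by simp at h,
        fun k => Or.inl ?_⟩
      obtain ⟨t, ht⟩ := hunb k
      exact ⟨k, t, ht, rfl⟩
  choose Q hQray hQ0 hQv o ho hQi using key
  refine ⟨Q, j₀, hQray, hQ0, ?_, ?_, hQv, ?_⟩
  · intro i i' hne k k' heq
    rcases hQi i k with ⟨m, t, hm, h1⟩ | ⟨j, l, m, hoi, hlm, h1⟩
    · rcases hQi i' k' with ⟨m', t', hm', h1'⟩ | ⟨j', l', m', hoi', hlm', h1'⟩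
      · exact hPd i i' hne m m' (by rw [← h1, ← h1', heq])
      · obtain ⟨⟨x', s', hx', hxl'⟩, hmax'⟩ := ho i' j' l' hoi'
        have he : item it (P i) m = item it (R j') m' := by rw [← h1, ← h1', heq]
        rcases hlm'.lt_or_eq with h | h
        · exact hmax' t i m m' hm h he
        · subst h
          exact hPd i i' hne m x' (by rw [he, hxl'])
    · rcases hQi i' k' with ⟨m', t', hm', h1'⟩ | ⟨j', l', m', hoi', hlm', h1'⟩
      · obtain ⟨⟨x, s, hx, hxl⟩, hmax⟩ := ho i j l hoi
        have he : item it (P i') m' = item it (R j) m := by rw [← h1, ← h1', heq]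
        rcases hlm.lt_or_eq with h | h
        · exact hmax t' i' m' m hm' h he
        · subst h
          exact hPd i i' hne x m' (by rw [he, hxl])
      · obtain ⟨⟨x, s, hx, hxl⟩, hmax⟩ := ho i j l hoi
        obtain ⟨⟨x', s', hx', hxl'⟩, hmax'⟩ := ho i' j' l' hoi'
        by_cases hjj : j = j'
        · subst hjj
          rcases lt_trichotomy l l' with h | h | h
          · exact hmax s' i' x' l' hx' h hxl'
          · subst h
            exact hPd i i' hne x x' (by rw [hxl, hxl'])
          · exact hmax' s i x l hx h hxl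
        · exact hRd j j' hjj m m' (by rw [← h1, ← h1', heq])
  · intro i k k' heq
    rcases hQi i k with ⟨m, t, hm, h1⟩ | ⟨j, l, m, hoi, hlm, h1⟩
    · exact hj₀ t ⟨i, m, k', hm, by rw [← h1, heq]⟩
    · obtain ⟨⟨x, s, hx, hxl⟩, hmax⟩ := ho i j l hoi
      by_cases hjj : j = j₀
      · subst hjj
        exact hj₀ s ⟨i, x, l, hx, hxl⟩
      · exact hRd j j₀ hjj m k' (by rw [← h1, heq])
  · intro i k
    rcases hQi i k with ⟨m, t, hm, h1⟩ | ⟨j, l, m, hoi, hlm, h1⟩
    · exact Or.inl ⟨m, h1⟩
    · exact Or.inr ⟨j, m, h1⟩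

end match_

/-! ### The theorem -/

section main

variable (it : V → V → I) (adj : V → V → Prop)

/-- The first `n` rays of the family. -/
def Fam (n : ℕ) (P : ℕ → ℕ → V) : Prop :=
  (∀ i < n, Ray adj (P i)) ∧ ∀ i < n, ∀ i' < n, i ≠ i' → DisjR it (P i) (P i')

variable {it adj}

theorem step (hit : ∀ u v u' v', it u v = it u' v' → u = u' ∨ u = v')
    (hall : ∀ n, ∃ R, Fam it adj n R) (n : ℕ) (P : ℕ → ℕ → V) (hP : Fam it adj n P) :
    ∃ P', Fam it adj (n + 1) P' ∧ ∀ i < n, ∀ k ≤ n, P' i k = P i k := by
  classical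
  obtain ⟨R, hR⟩ := hall (n + 1)
  -- the fixed vertices
  let X : Finset V := (Finset.range n ×ˢ Finset.range (n + 1)).image fun q => P q.1 q.2
  have hX : ∀ i < n, ∀ k ≤ n, P i k ∈ X := fun i hi k hk =>
    Finset.mem_image.2 ⟨(i, k), by simp; omega, rfl⟩
  have htail : ∀ j, j < n + 1 → ∃ N, ∀ k, R j (N + k) ∉ X := by
    intro j hj
    have hfin : ((R j) ⁻¹' (X : Set V)).Finite :=
      Set.Finite.preimage ((hR.1 j hj).1.injOn) X.finite_toSet
    obtain ⟨N, hN⟩ := hfin.bddAbove
    refine ⟨N + 1, fun k hk => ?_⟩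
    have := hN (show N + 1 + k ∈ (R j) ⁻¹' (X : Set V) from hk)
    omega
  have htail' : ∀ j : Fin (n + 1), ∃ N, ∀ k, R j (N + k) ∉ X := fun j => htail j j.2
  choose N hN using htail'
  have hrayT : ∀ (f : ℕ → V) (c : ℕ), Ray adj f → Ray adj (fun k => f (c + k)) := by
    intro f c hf
    refine ⟨fun a b h => ?_, fun k => hf.2 (c + k)⟩
    have := hf.1 h
    omega
  have hitT : ∀ (f : ℕ → V) (c k : ℕ), item it (fun k => f (c + k)) k = item it f (c + k) :=
    fun f c k => rfl
  obtain ⟨Q, j₀, hQray, hQ0, hQd, hQR, hQv, hQi⟩ := link (n := n) (adj := adj) hit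
    (P := fun i k => P i (n + k)) (R := fun j k => R j (N j + k))
    (fun i => hrayT _ _ (hP.1 i i.2)) (fun j => hrayT _ _ (hR.1 j j.2))
    (fun i i' hne k l => hP.2 i i.2 i' i'.2 (fun h => hne (Fin.ext h)) (n + k) (n + l))
    (fun j j' hne k l => hR.2 j j.2 j' j'.2 (fun h => hne (Fin.ext h)) (N j + k) (N j' + l))
  let Q' : ℕ → ℕ → V := fun i => if h : i < n then Q ⟨i, h⟩ else fun _ => P i 0
  have hQ'0 : ∀ i < n, Q' i 0 = P i n := by
    intro i hi
    show (if h : i < n then Q ⟨i, h⟩ else fun _ => P i 0) 0 = _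
    rw [dif_pos hi, hQ0]
    rfl
  have hQ' : ∀ i (hi : i < n), Q' i = Q ⟨i, hi⟩ := fun i hi => dif_pos hi
  let P' : ℕ → ℕ → V := fun i k =>
    if i < n then (if k ≤ n then P i k else Q' i (k - n)) else R j₀ (N j₀ + k)
  have hP'1 : ∀ i < n, ∀ k ≤ n, P' i k = P i k := fun i hi k hk => by
    show (if i < n then (if k ≤ n then P i k else Q' i (k - n)) else _) = _
    rw [if_pos hi, if_pos hk]
  have hP'2 : ∀ i (hi : i < n), ∀ k, P' i (n + k) = Q ⟨i, hi⟩ k := fun i hi k => by
    show (if i < n then (if n + k ≤ n then P i (n + k) else Q' i (n + k - n)) else _) = _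
    rw [if_pos hi]
    split_ifs with h
    · have : k = 0 := by omega
      subst this
      rw [hQ0]
    · rw [Nat.add_sub_cancel_left, hQ' i hi]
  have hP'3 : ∀ k, P' n k = R j₀ (N j₀ + k) := fun k => if_neg (lt_irrefl n)
  have hitem1 : ∀ i < n, ∀ k < n, item it (P' i) k = item it (P i) k := fun i hi k hk => by
    unfold item
    rw [hP'1 i hi k hk.le, hP'1 i hi (k + 1) hk]
  have hitem2 : ∀ i (hi : i < n), ∀ k, item it (P' i) (n + k) = item it (Q ⟨i, hi⟩) k :=
    fun i hi k => by
      unfold item
      rw [hP'2 i hi k, show n + k + 1 = n + (k + 1) by omega, hP'2 i hi (k + 1)]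
  have hitem3 : ∀ k, item it (P' n) k = item it (fun k => R j₀ (N j₀ + k)) k := fun k => by
    unfold item
    rw [hP'3 k, hP'3 (k + 1)]
  -- an item of a fixed segment is not an item of a tail of a ray `R j`
  have hsep : ∀ i < n, ∀ k < n, ∀ (j : Fin (n + 1)) (m : ℕ),
      item it (P i) k ≠ item it (fun k => R j (N j + k)) m := by
    intro i hi k hk j m h
    rcases hit _ _ _ _ h with h1 | h1
    · have h2 := hX i hi k hk.le
      rw [h1] at h2
      exact hN j m h2
    · have h2 := hX i hi k hk.le
      rw [h1] at h2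
      exact hN j (m + 1) h2
  refine ⟨P', ⟨?_, ?_⟩, hP'1⟩
  · intro i hi
    rcases Nat.lt_succ_iff_lt_or_eq.1 hi with hi | rfl
    · have hcross : ∀ k < n, ∀ m, P i k ≠ Q ⟨i, hi⟩ m := by
        intro k hk m h
        rcases hQv ⟨i, hi⟩ m with ⟨m', h1⟩ | ⟨j, m', h1⟩
        · have := (hP.1 i hi).1 (h.trans h1)
          omega
        · exact hN j m' ((h.trans h1) ▸ hX i hi k hk.le)
      refine ⟨fun a b hab => ?_, fun k => ?_⟩
      · rcases lt_or_ge a n with ha | ha
        · rcases lt_or_ge b n with hb | hb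
          · rw [hP'1 i hi a ha.le, hP'1 i hi b hb.le] at hab
            exact (hP.1 i hi).1 hab
          · obtain ⟨b', rfl⟩ := Nat.exists_eq_add_of_le hb
            rw [hP'1 i hi a ha.le, hP'2 i hi] at hab
            exact absurd hab (hcross a ha b')
        · obtain ⟨a', rfl⟩ := Nat.exists_eq_add_of_le ha
          rcases lt_or_ge b n with hb | hb
          · rw [hP'1 i hi b hb.le, hP'2 i hi] at hab
            exact absurd hab.symm (hcross b hb a')
          · obtain ⟨b', rfl⟩ := Nat.exists_eq_add_of_le hb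
            rw [hP'2 i hi, hP'2 i hi] at hab
            rw [(hQray ⟨i, hi⟩).1 hab]
      · rcases lt_or_ge k n with hk | hk
        · rw [hP'1 i hi k hk.le, hP'1 i hi (k + 1) hk]
          exact (hP.1 i hi).2 k
        · obtain ⟨k', rfl⟩ := Nat.exists_eq_add_of_le hk
          rw [hP'2 i hi, show n + k' + 1 = n + (k' + 1) by omega, hP'2 i hi]
          exact (hQray ⟨i, hi⟩).2 k'
    · have : P' i = fun k => R j₀ (N j₀ + k) := funext hP'3
      rw [this]
      exact hrayT _ _ (hR.1 j₀ j₀.2)
  · have hnew : ∀ i < n, DisjR it (P' i) (P' n) := by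
      intro i hi k l
      rw [hitem3]
      rcases lt_or_ge k n with hk | hk
      · rw [hitem1 i hi k hk]
        exact hsep i hi k hk j₀ l
      · obtain ⟨k', rfl⟩ := Nat.exists_eq_add_of_le hk
        rw [hitem2 i hi]
        exact hQR ⟨i, hi⟩ k' l
    have hmix : ∀ i (_ : i < n) i' (hi' : i' < n), i ≠ i' → ∀ k < n, ∀ m,
        item it (P i) k ≠ item it (Q ⟨i', hi'⟩) m := by
      intro i hi i' hi' hne k hk m h
      rcases hQi ⟨i', hi'⟩ m with ⟨m', h1⟩ | ⟨j, m', h1⟩
      · exact hP.2 i hi i' hi' hne k (n + m') (h.trans h1)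
      · exact hsep i hi k hk j m' (h.trans h1)
    intro i hi i' hi' hne
    rcases Nat.lt_succ_iff_lt_or_eq.1 hi with hi | rfl
    · rcases Nat.lt_succ_iff_lt_or_eq.1 hi' with hi' | rfl
      · intro k l
        rcases lt_or_ge k n with hk | hk
        · rw [hitem1 i hi k hk]
          rcases lt_or_ge l n with hl | hl
          · rw [hitem1 i' hi' l hl]
            exact hP.2 i hi i' hi' hne k l
          · obtain ⟨l', rfl⟩ := Nat.exists_eq_add_of_le hl
            rw [hitem2 i' hi']
            exact hmix i hi i' hi' hne k hk l'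
        · obtain ⟨k', rfl⟩ := Nat.exists_eq_add_of_le hk
          rw [hitem2 i hi]
          rcases lt_or_ge l n with hl | hl
          · rw [hitem1 i' hi' l hl]
            exact fun h => hmix i' hi' i hi hne.symm l hl k' h.symm
          · obtain ⟨l', rfl⟩ := Nat.exists_eq_add_of_le hl
            rw [hitem2 i' hi']
            exact hQd ⟨i, hi⟩ ⟨i', hi'⟩ (fun h => hne (Fin.mk.inj h)) k' l'
      · exact hnew i hi
    · rcases Nat.lt_succ_iff_lt_or_eq.1 hi' with hi' | rfl
      · exact fun k l h => hnew i' hi' l k h.symm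
      · exact absurd rfl hne

/-- **Halin's theorem** (all versions for one-way infinite paths). -/
theorem halin (hit : ∀ u v u' v', it u v = it u' v' → u = u' ∨ u = v')
    (hall : ∀ n, ∃ R, Fam it adj n R) :
    ∃ R : ℕ → ℕ → V, (∀ i, Ray adj (R i)) ∧ ∀ i i', i ≠ i' → DisjR it (R i) (R i') := by
  classical
  choose F hF hF' using fun (n : ℕ) (P : {P // Fam it adj n P}) =>
    step hit hall n P.1 P.2
  obtain ⟨P₀, hP₀⟩ := hall 0
  let S : (n : ℕ) → {P // Fam it adj n P} := fun n =>
    Nat.rec (motive := fun n => {P // Fam it adj n P}) ⟨P₀, hP₀⟩ (fun n P => ⟨F n P, hF n P⟩) n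
  have hS : ∀ n, ∀ i < n, ∀ k ≤ n, (S (n + 1)).1 i k = (S n).1 i k := fun n => hF' n (S n)
  have hS' : ∀ (n m : ℕ), n ≤ m → ∀ i < n, ∀ k ≤ n, (S m).1 i k = (S n).1 i k := by
    intro n m hnm
    induction m, hnm using Nat.le_induction with
    | base => intros; rfl
    | succ m hm ih =>
      intro i hi k hk
      rw [hS m i (by omega) k (by omega), ih i hi k hk]
  let R : ℕ → ℕ → V := fun i k => (S (i + k + 1)).1 i k
  have hR : ∀ i k n, i + k + 1 ≤ n → R i k = (S n).1 i k := fun i k n h =>
    (hS' (i + k + 1) n h i (by omega) k (by omega)).symm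
  refine ⟨R, fun i => ⟨fun a b hab => ?_, fun k => ?_⟩, fun i i' hne k l h => ?_⟩
  · have h1 := hR i a (i + a + b + 1) (by omega)
    have h2 := hR i b (i + a + b + 1) (by omega)
    rw [h1, h2] at hab
    exact ((S (i + a + b + 1)).2.1 i (by omega)).1 hab
  · rw [hR i k (i + k + 2) (by omega), hR i (k + 1) (i + k + 2) (by omega)]
    exact ((S (i + k + 2)).2.1 i (by omega)).2 k
  · let n := i + i' + k + l + 2
    have h1 : item it (R i) k = item it ((S n).1 i) k := by
      unfold item
      rw [hR i k n (by omega), hR i (k + 1) n (by omega)]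
    have h2 : item it (R i') l = item it ((S n).1 i') l := by
      unfold item
      rw [hR i' l n (by omega), hR i' (l + 1) n (by omega)]
    exact (S n).2.2 i (by omega) i' (by omega) hne k l (by rw [← h1, ← h2, h])

end main

end Pool.Agent.Q257.IR
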