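import Pool.Agent.Q257.IRT.Defs
import Pool.Agent.Q257.IRT.Halin
import Pool.Agent.H798R3.DirRay

/-!
# The principles `IRT_XYZ` in the standard model of second-order arithmetic

The four principles for rays are true (Halin's theorem), the principle for edge-disjoint double rays
in digraphs is false (the counterexample of `Pool.Agent.H798R3.DirRay`).
-/

set_option autoImplicit false

namespace Pool.Agent.Q257.IR

open Pool.Agent.Helper317.SOA

/-- The standard model: the natural numbers with all sets of natural numbers. -/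
def Std : Model where
  Num := ℕ
  zero := 0
  one := 1
  add := fun a b => a + b
  mul := fun a b => a * b
  lt := fun a b => a < b
  sets := Set.univ

theorem basic_std : Basic Std where
  succ_ne_zero := fun n => Nat.succ_ne_zero n
  succ_inj := fun _ _ h => Nat.succ.inj h
  add_zero := fun m => Nat.add_zero m
  add_succ := fun _ _ => rfl
  mul_zero := fun m => Nat.mul_zero m
  mul_succ := fun _ _ => rfl
  not_lt_zero := fun m => Nat.not_lt_zero m
  lt_succ := fun _ _ => Nat.lt_succ_iff_lt_or_eq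

theorem ind_std (φ : Fm) (i : ℕ) (v : ℕ → Std.Num) (V : ℕ → Set Std.Num)
    (h0 : Sat Std (Function.update v i Std.zero) V φ)
    (hs : ∀ a, Sat Std (Function.update v i a) V φ →
      Sat Std (Function.update v i (Std.add a Std.one)) V φ) :
    ∀ a, Sat Std (Function.update v i a) V φ := by
  intro a
  induction a using Nat.rec with
  | zero => exact h0
  | succ a ih => exact hs a ih

theorem rca0_std : RCA0 Std where
  basic := basic_std
  induction := fun φ _ i v V _ h0 hs => ind_std φ i v V h0 hs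
  comprehension := fun _ _ _ _ _ _ _ _ _ => Set.mem_univ _

/-! ### The principles for natural numbers -/

/-- the pairing function -/
def NP (a b : ℕ) : ℕ := (a + b) * (a + b) + a

def NAt (R : Set ℕ) (i p q v : ℕ) : Prop := NP (NP i (NP p q)) v ∈ R

def NIdx (dbl : Bool) (q : ℕ) : Prop := dbl = false → q = 0

def NRay (dbl : Bool) (E R : Set ℕ) (i : ℕ) : Prop :=
  (∀ p q, NIdx dbl q → ∃ u, NAt R i p q u) ∧
    (∀ p q p' q' u v, NIdx dbl q ∧ NIdx dbl q' → NAt R i p q u ∧ NAt R i p' q' v →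
      (u = v ↔ p + q' = p' + q)) ∧
    ∀ p q u v, NIdx dbl q → NAt R i p q u ∧ NAt R i (p + 1) q v → NP u v ∈ E

def NDisj (dir edge dbl : Bool) (R : Set ℕ) (i j : ℕ) : Prop :=
  (edge = false → ∀ p q p' q' u, NIdx dbl q ∧ NIdx dbl q' →
      NAt R i p q u → ¬ NAt R j p' q' u) ∧
    (edge = true → ∀ p q p' q' u v, NIdx dbl q ∧ NIdx dbl q' →
      NAt R i p q u ∧ NAt R i (p + 1) q v →
        ¬ (NAt R j p' q' u ∧ NAt R j (p' + 1) q' v) ∧
        (dir = false → ¬ (NAt R j p' q' v ∧ NAt R j (p' + 1) q' u)))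

def NGraph (dir : Bool) (Vt E : Set ℕ) : Prop :=
  (∀ u v, NP u v ∈ E → (u ∈ Vt ∧ v ∈ Vt) ∧ u ≠ v) ∧
    (dir = false → ∀ u v, NP u v ∈ E → NP v u ∈ E)

def NIRT (dir edge dbl : Bool) : Prop :=
  ∀ Vt ∈ (Set.univ : Set (Set ℕ)), ∀ E ∈ (Set.univ : Set (Set ℕ)), NGraph dir Vt E →
    (∀ n : ℕ, ∃ R ∈ (Set.univ : Set (Set ℕ)), (∀ i, i < n → NRay dbl E R i) ∧
      ∀ i j, (i < n ∧ j < n) ∧ i ≠ j → NDisj dir edge dbl R i j) →
    ∃ R ∈ (Set.univ : Set (Set ℕ)), (∀ i, NRay dbl E R i) ∧ ∀ i j, i ≠ j → NDisj dir edge dbl R i j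

theorem irt_iff (dir edge dbl : Bool) : IRT Std dir edge dbl ↔ NIRT dir edge dbl := Iff.rfl

/-! ### The pairing function -/

theorem pair_inj {a b c d : ℕ} (h : NP a b = NP c d) : a = c ∧ b = d := by
  unfold NP at h
  have h1 : a + b = c + d := by
    by_contra hne
    rcases lt_or_gt_of_ne hne with hlt | hlt
    · have := Nat.mul_self_le_mul_self (Nat.succ_le_of_lt hlt)
      simp only [Nat.succ_eq_add_one, add_mul, mul_add, one_mul, mul_one] at this h
      omega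
    · have := Nat.mul_self_le_mul_self (Nat.succ_le_of_lt hlt)
      simp only [Nat.succ_eq_add_one, add_mul, mul_add, one_mul, mul_one] at this h
      omega
  rw [h1] at h
  constructor <;> omega

theorem exists_code (T : ℕ → ℕ → ℕ → ℕ → Prop) :
    ∃ R : Set ℕ, ∀ i p q u, NAt R i p q u ↔ T i p q u := by
  refine ⟨{x | ∃ i p q u, T i p q u ∧ x = NP (NP i (NP p q)) u},
    fun i p q u => ⟨?_, fun h => ⟨i, p, q, u, h, rfl⟩⟩⟩
  rintro ⟨i', p', q', u', h, he⟩
  obtain ⟨h1, rfl⟩ := pair_inj he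
  obtain ⟨rfl, h2⟩ := pair_inj h1
  obtain ⟨rfl, rfl⟩ := pair_inj h2
  exact h

/-! ### Rays -/

section single

variable {E : Set ℕ}

theorem of_isRay {R : Set ℕ} {i : ℕ} (h : NRay false E R i) :
    ∃ f : ℕ → ℕ, Ray (fun u v => NP u v ∈ E) f ∧ ∀ k u, NAt R i k 0 u ↔ u = f k := by
  obtain ⟨h1, h2, h3⟩ := h
  choose f hf using fun k : ℕ => h1 k (0 : ℕ) fun _ => rfl
  have huniq : ∀ (k u : ℕ), NAt R i k 0 u ↔ u = f k := fun k u =>
    ⟨fun h => (h2 k (0 : ℕ) k (0 : ℕ) u (f k) ⟨fun _ => rfl, fun _ => rfl⟩ ⟨h, hf k⟩).2 rfl,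
      fun h => h ▸ hf k⟩
  refine ⟨f, ⟨fun a b hab => ?_, fun k => ?_⟩, huniq⟩
  · exact (h2 a (0 : ℕ) b (0 : ℕ) (f a) (f b) ⟨fun _ => rfl, fun _ => rfl⟩ ⟨hf a, hf b⟩).1 hab
  · exact h3 k (0 : ℕ) (f k) (f (k + 1)) (fun _ => rfl) ⟨hf k, hf (k + 1)⟩

theorem isRay_of {R : Set ℕ} {i : ℕ} {f : ℕ → ℕ} (hf : Ray (fun u v => NP u v ∈ E) f)
    (h : ∀ k u, NAt R i k 0 u ↔ u = f k) : NRay false E R i := by
  refine ⟨fun p q hq => ?_, fun p q p' q' u v hq hu => ?_, fun p q u v hq hu => ?_⟩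
  · obtain rfl : q = (0 : ℕ) := hq rfl
    exact ⟨f p, (h p _).2 rfl⟩
  · obtain rfl : q = (0 : ℕ) := hq.1 rfl
    obtain rfl : q' = (0 : ℕ) := hq.2 rfl
    obtain rfl := (h p u).1 hu.1
    obtain rfl := (h p' v).1 hu.2
    exact hf.1.eq_iff
  · obtain rfl : q = (0 : ℕ) := hq rfl
    obtain rfl := (h p u).1 hu.1
    obtain rfl := (h (p + 1) v).1 hu.2
    exact hf.2 p

/-- the items: vertices, arcs, or edges -/
theorem single_aux {I : Type} (it : ℕ → ℕ → I) (dir edge : Bool)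
    (hit : ∀ u v u' v', it u v = it u' v' → u = u' ∨ u = v')
    (hd : ∀ (R : Set ℕ) (i j : ℕ) (f g : ℕ → ℕ), (∀ k u, NAt R i k 0 u ↔ u = f k) →
      (∀ k u, NAt R j k 0 u ↔ u = g k) →
        (NDisj dir edge false R i j ↔ DisjR it f g)) :
    NIRT dir edge false := by
  intro Vt _ E _ _ hall
  obtain ⟨R, hR, hRd⟩ := halin (it := it) (adj := fun u v => NP u v ∈ E) hit (by
    intro n
    obtain ⟨R, -, h1, h2⟩ := hall n
    have h3 : ∀ i : ℕ, ∃ f : ℕ → ℕ, i < n → Ray (fun u v => NP u v ∈ E) f ∧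
        ∀ k u, NAt R i k 0 u ↔ u = f k := by
      intro i
      by_cases hi : i < n
      · obtain ⟨f, hf⟩ := of_isRay (h1 i hi)
        exact ⟨f, fun _ => hf⟩
      · exact ⟨fun _ => 0, fun h => absurd h hi⟩
    choose f hf using h3
    refine ⟨f, fun i hi => (hf i hi).1, fun i hi j hj hne => ?_⟩
    exact (hd R i j (f i) (f j) (hf i hi).2 (hf j hj).2).1 (h2 i j ⟨⟨hi, hj⟩, hne⟩))
  obtain ⟨S, hS⟩ := exists_code fun i p q u => q = 0 ∧ u = R i p
  have hS' : ∀ i k u, NAt S i k 0 u ↔ u = R i k := fun i k u =>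
    (hS i k 0 u).trans ⟨fun h => h.2, fun h => ⟨rfl, h⟩⟩
  exact ⟨S, Set.mem_univ _, fun i => isRay_of (hR i) (hS' i), fun i j hne =>
    (hd S i j (R i) (R j) (hS' i) (hS' j)).2 (hRd i j hne)⟩

/-- **The four principles for rays hold in the standard model.** -/
theorem irt_single (dir edge : Bool) : IRT Std dir edge false := by
  rw [irt_iff]
  cases edge with
  | false =>
    refine single_aux (fun u _ => u) dir false (fun u v u' v' h => Or.inl h) ?_
    intro R i j f g hf hg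
    constructor
    · intro h k l hkl
      exact h.1 rfl k (0 : ℕ) l (0 : ℕ) (f k) ⟨fun _ => rfl, fun _ => rfl⟩ ((hf k _).2 rfl)
        ((hg l _).2 hkl)
    · refine fun h => ⟨fun _ p q p' q' u hq h1 h2 => ?_, fun hc => absurd hc (by decide)⟩
      obtain rfl : q = (0 : ℕ) := hq.1 rfl
      obtain rfl : q' = (0 : ℕ) := hq.2 rfl
      exact h p p' (((hf p u).1 h1).symm.trans ((hg p' u).1 h2))
  | true =>
    cases dir with
    | true =>
      refine single_aux (fun u v => (u, v)) true true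
        (fun u v u' v' h => Or.inl (Prod.mk.inj h).1) ?_
      intro R i j f g hf hg
      constructor
      · intro h k l hkl
        obtain ⟨h1, h2⟩ := Prod.mk.inj hkl
        exact (h.2 rfl k (0 : ℕ) l (0 : ℕ) (f k) (f (k + 1)) ⟨fun _ => rfl, fun _ => rfl⟩
          ⟨(hf k _).2 rfl, (hf (k + 1) _).2 rfl⟩).1 ⟨(hg l _).2 h1, (hg (l + 1) _).2 h2⟩
      · refine fun h => ⟨fun hc => absurd hc (by decide), fun _ p q p' q' u v hq h1 => ⟨?_,
          fun hc => absurd hc (by decide)⟩⟩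
        rintro ⟨h3, h4⟩
        obtain rfl : q = (0 : ℕ) := hq.1 rfl
        obtain rfl : q' = (0 : ℕ) := hq.2 rfl
        exact h p p' (Prod.ext (((hf p u).1 h1.1).symm.trans ((hg p' u).1 h3))
          (((hf (p + 1) v).1 h1.2).symm.trans ((hg (p' + 1) v).1 h4)))
    | false =>
      refine single_aux (fun u v => s(u, v)) false true (fun u v u' v' h => ?_) ?_
      · rcases Sym2.eq_iff.1 h with h | h
        · exact Or.inl h.1
        · exact Or.inr h.1
      intro R i j f g hf hg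
      constructor
      · intro h k l hkl
        have h0 := h.2 rfl k (0 : ℕ) l (0 : ℕ) (f k) (f (k + 1)) ⟨fun _ => rfl, fun _ => rfl⟩
          ⟨(hf k _).2 rfl, (hf (k + 1) _).2 rfl⟩
        rcases Sym2.eq_iff.1 hkl with ⟨h1, h2⟩ | ⟨h1, h2⟩
        · exact h0.1 ⟨(hg l _).2 h1, (hg (l + 1) _).2 h2⟩
        · exact h0.2 rfl ⟨(hg l _).2 h2, (hg (l + 1) _).2 h1⟩
      · refine fun h => ⟨fun hc => absurd hc (by decide), fun _ p q p' q' u v hq h1 => ⟨?_, ?_⟩⟩
        · rintro ⟨h3, h4⟩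
          obtain rfl : q = (0 : ℕ) := hq.1 rfl
          obtain rfl : q' = (0 : ℕ) := hq.2 rfl
          exact h p p' (Sym2.eq_iff.2 (Or.inl ⟨((hf p u).1 h1.1).symm.trans ((hg p' u).1 h3),
            ((hf (p + 1) v).1 h1.2).symm.trans ((hg (p' + 1) v).1 h4)⟩))
        · rintro _ ⟨h3, h4⟩
          obtain rfl : q = (0 : ℕ) := hq.1 rfl
          obtain rfl : q' = (0 : ℕ) := hq.2 rfl
          exact h p p' (Sym2.eq_iff.2 (Or.inr ⟨((hf p u).1 h1.1).symm.trans ((hg (p' + 1) u).1 h4),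
            ((hf (p + 1) v).1 h1.2).symm.trans ((hg p' v).1 h3)⟩))

end single

/-! ### Double rays -/

theorem isRay_double {E R : Set ℕ} {i : ℕ} {f : ℤ → ℕ} (hinj : Function.Injective f)
    (hadj : ∀ z, NP (f z) (f (z + 1)) ∈ E)
    (h : ∀ (p q u : ℕ), NAt R i p q u ↔ u = f ((p : ℤ) - q)) : NRay true E R i := by
  refine ⟨fun p q _ => ⟨_, (h p q _).2 rfl⟩, fun p q p' q' u v _ hu => ?_,
    fun p q u v _ hu => ?_⟩
  · obtain rfl := (h p q u).1 hu.1
    obtain rfl := (h p' q' v).1 hu.2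
    rw [hinj.eq_iff]
    show ((p : ℤ) - (q : ℕ) = (p' : ℕ) - (q' : ℕ)) ↔ (p + q' : ℕ) = p' + q
    omega
  · obtain rfl := (h p q u).1 hu.1
    obtain rfl := (h (p + 1) q v).1 hu.2
    have h1 := hadj ((p : ℤ) - (q : ℕ))
    rwa [show ((p : ℕ) : ℤ) - (q : ℕ) + 1 = ((p + 1 : ℕ) : ℤ) - (q : ℕ) by push_cast; ring] at h1

theorem of_isRay_double {E R : Set ℕ} {i : ℕ} (h : NRay true E R i) :
    ∃ f : ℤ → ℕ, Function.Injective f ∧ (∀ z, NP (f z) (f (z + 1)) ∈ E) ∧
      ∀ (p q u : ℕ), NAt R i p q u ↔ u = f ((p : ℤ) - q) := by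
  obtain ⟨h1, h2, h3⟩ := h
  have hidx : ∀ q : ℕ, NIdx true q := fun q hc => absurd hc (by decide)
  choose f hf using fun z : ℤ => h1 (z.toNat : ℕ) ((-z).toNat : ℕ) (hidx _)
  have huniq : ∀ (p q u : ℕ), NAt R i p q u ↔ u = f ((p : ℤ) - q) := by
    intro p q u
    have h4 := hf ((p : ℤ) - q)
    constructor
    · intro h
      refine (h2 _ _ _ _ u _ ⟨hidx _, hidx _⟩ ⟨h, h4⟩).2 ?_
      show (p + (-((p : ℤ) - q)).toNat : ℕ) = ((p : ℤ) - q).toNat + q
      omega
    · rintro rfl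
      obtain ⟨w, hw⟩ := h1 p q (hidx _)
      have := (h2 _ _ _ _ w _ ⟨hidx _, hidx _⟩ ⟨hw, h4⟩).2 (by
        show (p + (-((p : ℤ) - q)).toNat : ℕ) = ((p : ℤ) - q).toNat + q
        omega)
      rwa [this] at hw
  refine ⟨f, fun a b hab => ?_, fun z => ?_, huniq⟩
  · have h5 := (h2 _ _ _ _ _ _ ⟨hidx _, hidx _⟩ ⟨hf a, hf b⟩).1 hab
    have h6 : (a.toNat + (-b).toNat : ℕ) = b.toNat + (-a).toNat := h5
    omega
  · have h5 := hf z
    refine h3 (z.toNat : ℕ) ((-z).toNat : ℕ) (f z) (f (z + 1)) (hidx _) ⟨h5, ?_⟩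
    refine (huniq (z.toNat + 1) ((-z).toNat) _).2 ?_
    congr 1
    push_cast
    omega

/-- **The principle for edge-disjoint double rays in digraphs fails in the standard model.** -/
theorem not_irt_double : ¬ IRT Std true true true := by
  rw [irt_iff]
  intro h
  refine Pool.Agent.H798R3.DirRay.main ?_
  intro V G hall
  classical
  choose R hinj hadj hdis using hall
  let C : Set V := Set.range fun q : (Σ k : ℕ, Fin k × ℤ) => R q.1 q.2.1 q.2.2
  have hC : ∀ k i z, R k i z ∈ C := fun k i z => ⟨⟨k, i, z⟩, rfl⟩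
  have : Countable C := Set.countable_range _
  obtain ⟨enc, henc⟩ := exists_injective_nat C
  let E : Set ℕ := {x | ∃ u v : C, (G.Adj u v ∧ u ≠ v) ∧ x = NP (enc u) (enc v)}
  have hE : ∀ u v : C, NP (enc u) (enc v) ∈ E ↔ G.Adj u v ∧ u ≠ v := by
    intro u v
    constructor
    · rintro ⟨u', v', h1, h2⟩
      obtain ⟨h3, h4⟩ := pair_inj h2
      rw [henc h3, henc h4]
      exact h1
    · exact fun h1 => ⟨u, v, h1, rfl⟩
  have hE' : ∀ a b : ℕ, NP a b ∈ E → ∃ u v : C, enc u = a ∧ enc v = b ∧ G.Adj u v := by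
    rintro a b ⟨u, v, h1, h2⟩
    obtain ⟨h3, h4⟩ := pair_inj h2
    exact ⟨u, v, h3.symm, h4.symm, h1.1⟩
  obtain ⟨S, -, hS1, hS2⟩ := h Set.univ (Set.mem_univ _) E (Set.mem_univ _)
    ⟨by
      rintro a b ⟨u, v, h1, h2⟩
      obtain ⟨h3, h4⟩ := pair_inj h2
      exact ⟨⟨Set.mem_univ _, Set.mem_univ _⟩, fun h5 => h1.2 (henc (by rw [← h3, ← h4]; exact h5))⟩,
      fun hc => absurd hc (by decide)⟩
    (by
      intro n
      let g : ℕ → ℤ → ℕ := fun i z => if hi : i < n then enc ⟨R n ⟨i, hi⟩ z, hC _ _ _⟩ else 0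
      have hg : ∀ i (hi : i < n) z, g i z = enc ⟨R n ⟨i, hi⟩ z, hC _ _ _⟩ :=
        fun i hi z => dif_pos hi
      obtain ⟨T, hT⟩ := exists_code fun i p q u => u = g i ((p : ℤ) - q)
      refine ⟨T, Set.mem_univ _, fun i hi => ?_, ?_⟩
      · refine isRay_double (f := g i) ?_ ?_ (hT i)
        · intro a b hab
          rw [hg i hi, hg i hi] at hab
          exact hinj n ⟨i, hi⟩ (congrArg Subtype.val (henc hab))
        · intro z
          rw [hg i hi, hg i hi, hE]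
          refine ⟨hadj n ⟨i, hi⟩ z, fun hc => ?_⟩
          have := hinj n ⟨i, hi⟩ (congrArg Subtype.val hc)
          omega
      · rintro i j ⟨⟨hi, hj⟩, hne⟩
        refine ⟨fun hc => absurd hc (by decide), fun _ p q p' q' u v _ h1 => ⟨?_,
          fun hc => absurd hc (by decide)⟩⟩
        rintro ⟨h2, h3⟩
        have e1 := (hT i p q u).1 h1.1
        have e2 := (hT i (p + 1 : ℕ) q v).1 h1.2
        have e3 := (hT j p' q' u).1 h2
        have e4 := (hT j (p' + 1 : ℕ) q' v).1 h3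
        rw [hg i hi] at e1 e2
        rw [hg j hj] at e3 e4
        refine hdis n ⟨i, hi⟩ ⟨j, hj⟩ (fun hc => hne (Fin.mk.inj hc)) ((p : ℤ) - (q : ℕ))
          ((p' : ℤ) - (q' : ℕ)) ⟨?_, ?_⟩
        · exact congrArg Subtype.val (henc (e1.symm.trans e3))
        · have e5 := congrArg Subtype.val (henc (e2.symm.trans e4))
          rw [show ((p : ℕ) : ℤ) - (q : ℕ) + 1 = ((p + 1 : ℕ) : ℤ) - (q : ℕ) by push_cast; ring,
            show ((p' : ℕ) : ℤ) - (q' : ℕ) + 1 = ((p' + 1 : ℕ) : ℤ) - (q' : ℕ) by push_cast; ring]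
          exact e5)
  choose f hf1 hf2 hf3 using fun i => of_isRay_double (hS1 i)
  have hdec : ∀ i z, ∃ u : C, enc u = f i z := fun i z => by
    obtain ⟨u, v, h1, -⟩ := hE' _ _ (hf2 i z)
    exact ⟨u, h1⟩
  choose g hg using hdec
  refine ⟨fun i z => (g i z : V), fun i a b hab => ?_, fun i z => ?_, ?_⟩
  · refine hf1 i ?_
    rw [← hg i a, ← hg i b, Subtype.ext hab]
  · have h1 := hf2 i z
    rw [← hg i z, ← hg i (z + 1), hE] at h1
    exact h1.1
  · rintro i j hne m n ⟨h1, h2⟩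
    have h1' : f i m = f j n := by rw [← hg i m, ← hg j n, Subtype.ext h1]
    have h2' : f i (m + 1) = f j (n + 1) := by rw [← hg i, ← hg j, Subtype.ext h2]
    have hm : ∀ z : ℤ, (((z.toNat : ℕ) : ℤ) - ((-z).toNat : ℕ)) = z := fun z => by omega
    have hidx : ∀ q : ℕ, NIdx true q := fun q hc => absurd hc (by decide)
    refine ((hS2 i j hne).2 rfl (m.toNat : ℕ) ((-m).toNat : ℕ) (n.toNat : ℕ) ((-n).toNat : ℕ)
      (f i m) (f i (m + 1)) ⟨hidx _, hidx _⟩ ⟨?_, ?_⟩).1 ⟨?_, ?_⟩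
    · exact (hf3 i _ _ _).2 (by rw [hm])
    · refine (hf3 i (m.toNat + 1) _ _).2 ?_
      congr 1; push_cast; omega
    · exact (hf3 j _ _ _).2 (by rw [hm, h1'])
    · refine (hf3 j (n.toNat + 1) _ _).2 ?_
      rw [h2']
      congr 1; push_cast; omega

end Pool.Agent.Q257.IR
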